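import Pool.Agent.Y440.A.Stm

/-!
# Q440-UNIV: an inequality valid for every 4-graph
-/

set_option autoImplicit false

open Finset

namespace Pool.Agent.Y430.Q440

open Pool.Agent.Y440.A

variable {n : ℕ}

/-- double counting of pairs (point, set) -/
theorem pairs (k : ℕ) (g : Fin n → Finset (Fin n) → ℕ) :
    ∑ a, ∑ T ∈ powersetCard k univ, (if a ∉ T then g a (insert a T) else 0) =
      ∑ Q ∈ powersetCard (k + 1) univ, ∑ a ∈ Q, g a Q := by
  have h1 : ∀ a : Fin n, ∑ T ∈ powersetCard k univ, (if a ∉ T then g a (insert a T) else 0) =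
      ∑ Q ∈ powersetCard (k + 1) univ, (if a ∈ Q then g a Q else 0) := by
    intro a
    rw [← sum_filter, ← sum_filter]
    refine sum_bij' (fun T _ => insert a T) (fun Q _ => Q.erase a) ?_ ?_ ?_ ?_ ?_
    · intro T hT
      rw [mem_filter, mem_powersetCard] at hT
      rw [mem_filter, mem_powersetCard]
      exact ⟨⟨subset_univ _, by rw [card_insert_of_notMem hT.2, hT.1.2]⟩, mem_insert_self _ _⟩
    · intro Q hQ
      rw [mem_filter, mem_powersetCard] at hQ
      rw [mem_filter, mem_powersetCard]
      exact ⟨⟨subset_univ _, by rw [card_erase_of_mem hQ.2, hQ.1.2]; rfl⟩, notMem_erase _ _⟩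
    · intro T hT
      rw [mem_filter] at hT
      exact erase_insert hT.2
    · intro Q hQ
      rw [mem_filter] at hQ
      exact insert_erase hQ.2
    · intro T hT
      rfl
  rw [sum_congr rfl fun a _ => h1 a, sum_comm]
  refine sum_congr rfl fun Q _ => ?_
  rw [← sum_filter]
  refine sum_congr ?_ fun _ _ => rfl
  ext a; simp

/-- the sum over the one point extensions -/
def D (f : Finset (Fin n) → ℕ) (T : Finset (Fin n)) : ℕ :=
  ∑ a, if a ∉ T then f (insert a T) else 0

theorem D_sum (k : ℕ) (f : Finset (Fin n) → ℕ) :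
    ∑ T ∈ powersetCard k univ, D f T = (k + 1) * ∑ T ∈ powersetCard (k + 1) univ, f T := by
  unfold D
  rw [sum_comm, pairs k (fun _ Q => f Q), mul_sum]
  refine sum_congr rfl fun Q hQ => ?_
  rw [mem_powersetCard] at hQ
  rw [sum_const, hQ.2, smul_eq_mul]

/-- ordered quadruples of distinct points against four-point sets -/
theorem quad (f : Finset (Fin n) → ℕ) :
    D (D (D (D f))) ∅ = 24 * ∑ Q ∈ powersetCard 4 univ, f Q := by
  have h0 : ∑ T ∈ powersetCard 0 (univ : Finset (Fin n)), D (D (D (D f))) T = D (D (D (D f))) ∅ := by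
    simp
  rw [← h0, D_sum, D_sum, D_sum, D_sum]
  ring

/-- the link -/
def F (H : Finset (Finset (Fin n))) (d a b c : Fin n) : ℕ :=
  if ({d, a, b, c} : Finset (Fin n)) ∈ H then 1 else 0

theorem F_s0 (H : Finset (Finset (Fin n))) (d a b c : Fin n) : F H d b a c = F H d a b c := by
  have : ({d, b, a, c} : Finset (Fin n)) = {d, a, b, c} := by ext; simp; tauto
  unfold F; rw [this]

theorem F_s1 (H : Finset (Finset (Fin n))) (d a b c : Fin n) : F H d a c b = F H d a b c := by
  have : ({d, a, c, b} : Finset (Fin n)) = {d, a, b, c} := by ext; simp; tauto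
  unfold F; rw [this]

/-- the derived structure -/
def EE (H : Finset (Finset (Fin n))) (d a b c e : Fin n) : ℕ :=
  (1 + F H d a b c + F H d a b e + F H d a c e + F H d b c e) % 2

theorem EE_odd (H : Finset (Finset (Fin n))) (d : Fin n) : Odd4 (EE H d) where
  bt a b c e := by unfold EE; omega
  s0 a b c e := by
    unfold EE
    rw [F_s0 H d a b c, F_s0 H d a b e]
    congr 1; ring
  s1 a b c e := by
    unfold EE
    rw [F_s1 H d a b c, F_s0 H d b c e]
    congr 1; ring
  s2 a b c e := by
    unfold EE
    rw [F_s1 H d a c e, F_s1 H d b c e]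
    congr 1; ring
  odd a b c d' e := by
    unfold EE
    omega

/-- the value on a four-point set -/
def G (H : Finset (Finset (Fin n))) (d : Fin n) (Q : Finset (Fin n)) : ℕ :=
  (1 + ∑ x ∈ Q, if insert d (Q.erase x) ∈ H then 1 else 0) % 2

theorem EE_eq (H : Finset (Finset (Fin n))) (d a b c e : Fin n) (h1 : a ∉ ({b, c, e} : Finset (Fin n)))
    (h2 : b ∉ ({c, e} : Finset (Fin n))) (h3 : c ∉ ({e} : Finset (Fin n))) :
    EE H d a b c e = G H d {a, b, c, e} := by
  unfold EE G F
  rw [sum_insert h1, sum_insert h2, sum_insert h3, sum_singleton]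
  simp only [mem_insert, mem_singleton, not_or] at h1 h2 h3
  obtain ⟨hab, hac, hae⟩ := h1
  obtain ⟨hbc, hbe⟩ := h2
  have e1 : insert d (({a, b, c, e} : Finset (Fin n)).erase a) = {d, b, c, e} := by
    ext x; simp only [mem_insert, mem_erase, mem_singleton]
    constructor
    · tauto
    · rintro (h | h | h | h) <;> subst h <;> tauto
  have e2 : insert d (({a, b, c, e} : Finset (Fin n)).erase b) = {d, a, c, e} := by
    ext x; simp only [mem_insert, mem_erase, mem_singleton]
    constructor
    · tauto
    · rintro (h | h | h | h) <;> subst h <;> tauto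
  have e3 : insert d (({a, b, c, e} : Finset (Fin n)).erase c) = {d, a, b, e} := by
    ext x; simp only [mem_insert, mem_erase, mem_singleton]
    constructor
    · tauto
    · rintro (h | h | h | h) <;> subst h <;> tauto
  have e4 : insert d (({a, b, c, e} : Finset (Fin n)).erase e) = {d, a, b, c} := by
    ext x; simp only [mem_insert, mem_erase, mem_singleton]
    constructor
    · tauto
    · rintro (h | h | h | h) <;> subst h <;> tauto
  rw [e1, e2, e3, e4]
  congr 1
  ring

theorem EE_le (H : Finset (Finset (Fin n))) (d a b c e : Fin n) : EE H d a b c e ≤ 1 := by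
  unfold EE; omega

/-- the function summed over four-point sets -/
def fd (H : Finset (Finset (Fin n))) (d : Fin n) (Q : Finset (Fin n)) : ℕ :=
  if d ∉ Q then G H d Q else 0

theorem bound1 (H : Finset (Finset (Fin n))) (d a b c e : Fin n) :
    EE H d a b c e ≤
      (if c ∉ ({e} : Finset (Fin n)) then (if b ∉ ({c, e} : Finset (Fin n)) then
        (if a ∉ ({b, c, e} : Finset (Fin n)) then fd H d {a, b, c, e} else 0) else 0) else 0) +
      ((if a = b then 1 else 0) + (if a = c then 1 else 0) + (if a = e then 1 else 0) +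
       (if b = c then 1 else 0) + (if b = e then 1 else 0) + (if c = e then 1 else 0) +
       (if a = d then 1 else 0) + (if b = d then 1 else 0) + (if c = d then 1 else 0) +
       (if e = d then 1 else 0)) := by
  have h0 := EE_le H d a b c e
  by_cases h3 : c ∉ ({e} : Finset (Fin n))
  · by_cases h2 : b ∉ ({c, e} : Finset (Fin n))
    · by_cases h1 : a ∉ ({b, c, e} : Finset (Fin n))
      · rw [if_pos h3, if_pos h2, if_pos h1]
        unfold fd
        by_cases h4 : d ∉ ({a, b, c, e} : Finset (Fin n))
        · rw [if_pos h4, EE_eq H d a b c e h1 h2 h3]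
          omega
        · rw [if_neg h4]
          simp only [mem_insert, mem_singleton, not_not] at h4
          rcases h4 with h | h | h | h <;> subst h <;> simp <;> omega
      · simp only [mem_insert, mem_singleton, not_not] at h1
        rcases h1 with h | h | h <;> subst h <;> simp <;> omega
    · simp only [mem_insert, mem_singleton, not_not] at h2
      rcases h2 with h | h <;> subst h <;> simp <;> omega
  · simp only [mem_singleton, not_not] at h3
    subst h3; simp; omega

theorem EE_rev (H : Finset (Finset (Fin n))) (d a b c e : Fin n) :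
    EE H d e c b a = EE H d a b c e := by
  have O := EE_odd H d
  rw [O.s0 c e b a, O.s1 c b e a, O.s2 c b a e, O.s0 b c a e, O.s1 b a c e, O.s0 a b c e]

theorem sum_bound (H : Finset (Finset (Fin n))) (d : Fin n) :
    ∑ a, ∑ b, ∑ c, ∑ e, EE H d a b c e ≤
      24 * ∑ Q ∈ powersetCard 4 univ, fd H d Q + 10 * n ^ 3 := by
  have h1 : ∑ a, ∑ b, ∑ c, ∑ e, EE H d a b c e ≤ ∑ a, ∑ b, ∑ c, ∑ e, ((if b ∉ ({a} : Finset (Fin n)) then (if c ∉ ({b, a} : Finset (Fin n)) then
        (if e ∉ ({c, b, a} : Finset (Fin n)) then fd H d {e, c, b, a} else 0) else 0) else 0) +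
      ((if e = c then 1 else 0) + (if e = b then 1 else 0) + (if e = a then 1 else 0) +
       (if c = b then 1 else 0) + (if c = a then 1 else 0) + (if b = a then 1 else 0) +
       (if e = d then 1 else 0) + (if c = d then 1 else 0) + (if b = d then 1 else 0) +
       (if a = d then 1 else 0))) := by
    refine sum_le_sum fun a _ => sum_le_sum fun b _ => sum_le_sum fun c _ => sum_le_sum fun e _ => ?_
    rw [← EE_rev]
    exact bound1 H d e c b a
  refine h1.trans ?_
  simp only [sum_add_distrib]
  have h2 : ∑ a, ∑ b, ∑ c, ∑ e, (if b ∉ ({a} : Finset (Fin n)) then (if c ∉ ({b, a} : Finset (Fin n)) then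
        (if e ∉ ({c, b, a} : Finset (Fin n)) then fd H d {e, c, b, a} else 0) else 0) else 0) =
      24 * ∑ Q ∈ powersetCard 4 univ, fd H d Q := by
    rw [← quad]
    unfold D
    refine sum_congr rfl fun a _ => ?_
    rw [if_pos (notMem_empty a)]
    refine sum_congr rfl fun b _ => ?_
    by_cases hb : b ∉ ({a} : Finset (Fin n))
    · simp only [insert_empty_eq, if_pos hb]
      refine sum_congr rfl fun c _ => ?_
      by_cases hc : c ∉ ({b, a} : Finset (Fin n))
      · simp only [if_pos hc]
      · simp only [if_neg hc, sum_const_zero]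
    · simp only [insert_empty_eq, if_neg hb, sum_const_zero]
  rw [h2]
  gcongr
  simp only [← mul_sum, sum_ite_eq', mem_univ, if_true, sum_const, card_univ, Fintype.card_fin,
    smul_eq_mul, mul_one]
  nlinarith

theorem nin_eq (H : Finset (Finset (Fin n))) (hH : H ⊆ powersetCard 4 univ) (P : Finset (Fin n))
    (hP : P.card = 5) : nin H P = ∑ x ∈ P, if P.erase x ∈ H then 1 else 0 := by
  unfold nin
  rw [← card_filter]
  symm
  refine card_bij (fun x _ => P.erase x) ?_ ?_ ?_
  · intro x hx
    rw [mem_filter] at hx ⊢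
    exact ⟨hx.2, erase_subset _ _⟩
  · intro x hx y hy h
    rw [mem_filter] at hx hy
    exact erase_injOn P hx.1 hy.1 h
  · intro R hR
    rw [mem_filter] at hR
    have hc : R.card = 4 := (mem_powersetCard.1 (hH hR.1)).2
    have h1 : (P \ R).card = 1 := by
      rw [card_sdiff_of_subset hR.2, hP, hc]
    obtain ⟨x, hx⟩ := card_eq_one.1 h1
    have h2 : P.erase x = R := by
      rw [← sdiff_singleton_eq_erase, ← hx, Finset.sdiff_sdiff_eq_self hR.2]
    refine ⟨x, ?_, h2⟩
    rw [mem_filter, h2]
    have : x ∈ P \ R := by rw [hx]; exact mem_singleton_self x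
    exact ⟨(mem_sdiff.1 this).1, hR.1⟩

theorem wt_eq (H : Finset (Finset (Fin n))) (hH : H ⊆ powersetCard 4 univ) (P : Finset (Fin n))
    (hP : P.card = 5) : ∑ d ∈ P, G H d (P.erase d) = wt5 (nin H P) := by
  set h : Fin n → ℕ := fun x => if P.erase x ∈ H then 1 else 0 with hh
  have hk : nin H P = ∑ x ∈ P, h x := nin_eq H hH P hP
  have hle : ∀ x, h x ≤ 1 := by intro x; simp only [hh]; split_ifs <;> omega
  have hG : ∀ d ∈ P, G H d (P.erase d) = (1 + ∑ x ∈ P.erase d, h x) % 2 := by
    intro d hd
    unfold G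
    congr 2
    refine sum_congr rfl fun x hx => ?_
    rw [mem_erase] at hx
    have : insert d ((P.erase d).erase x) = P.erase x := by
      rw [erase_right_comm]
      exact insert_erase (mem_erase.2 ⟨fun e => hx.1 e.symm, hd⟩)
    rw [this]
  have hs : ∀ d ∈ P, h d + ∑ x ∈ P.erase d, h x = nin H P := by
    intro d hd
    rw [hk]
    exact add_sum_erase P h hd
  unfold wt5
  by_cases hev : nin H P % 2 = 0
  · rw [if_pos hev]
    have h1 : ∑ d ∈ P, (G H d (P.erase d) + h d) = ∑ d ∈ P, 1 := by
      refine sum_congr rfl fun d hd => ?_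
      have h2 := hG d hd
      have h3 := hs d hd
      have h4 := hle d
      omega
    rw [sum_add_distrib, ← hk, sum_const, hP, smul_eq_mul] at h1
    omega
  · rw [if_neg hev, hk]
    refine sum_congr rfl fun d hd => ?_
    have h2 := hG d hd
    have h3 := hs d hd
    have h4 := hle d
    omega

theorem t : S_univ := by
  intro hcore n H hH
  have h1 : ∀ d : Fin n, 5 * n ^ 4 ≤ 384 * ∑ Q ∈ powersetCard 4 univ, fd H d Q + 160 * n ^ 3 := by
    intro d
    have h2 := hcore (Fin n) (EE H d) (EE_odd H d)
    have h3 := sum_bound H d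
    rw [Fintype.card_fin] at h2
    omega
  have h4 : ∑ _d : Fin n, 5 * n ^ 4 ≤
      ∑ d : Fin n, (384 * ∑ Q ∈ powersetCard 4 univ, fd H d Q + 160 * n ^ 3) :=
    sum_le_sum fun d _ => h1 d
  have e0 : ∑ d : Fin n, 384 * ∑ Q ∈ powersetCard 4 univ, fd H d Q =
      384 * ∑ d : Fin n, ∑ Q ∈ powersetCard 4 univ, fd H d Q := (mul_sum _ _ _).symm
  rw [sum_add_distrib, e0, sum_const, sum_const, card_univ, Fintype.card_fin, smul_eq_mul,
    smul_eq_mul] at h4
  have h5 : ∑ d : Fin n, ∑ Q ∈ powersetCard 4 univ, fd H d Q =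
      ∑ P ∈ powersetCard 5 (univ : Finset (Fin n)), wt5 (nin H P) := by
    have h6 := pairs (n := n) 4 (fun d P => G H d (P.erase d))
    have h7 : ∑ d : Fin n, ∑ Q ∈ powersetCard 4 univ, fd H d Q =
        ∑ a, ∑ T ∈ powersetCard 4 univ, (if a ∉ T then G H a ((insert a T).erase a) else 0) := by
      refine sum_congr rfl fun a _ => sum_congr rfl fun T _ => ?_
      unfold fd
      by_cases ha : a ∉ T
      · rw [if_pos ha, if_pos ha, erase_insert ha]
      · rw [if_neg ha, if_neg ha]
    rw [h7, h6]
    refine sum_congr rfl fun P hP => ?_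
    exact wt_eq H hH P (mem_powersetCard.1 hP).2
  rw [h5] at h4
  have e1 : n * (5 * n ^ 4) = 5 * n ^ 5 := by ring
  have e2 : n * (160 * n ^ 3) = 160 * n ^ 4 := by ring
  rw [e1, e2] at h4
  have h8 : 160 * n ^ 4 ≤ 200 * n ^ 4 := by gcongr; norm_num
  omega

end Pool.Agent.Y430.Q440
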